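import Pool.Agent.Y763.AH.E

/-! # The form factor in the range known by Montgomery's theorem, against continuous weights -/

set_option autoImplicit false

open MeasureTheory Set Filter Topology

namespace Pool.Agent.Y763.AG

open Pool.Agent.Y749.Rig Pool.Agent.Y763.AH
open SG (ord NZ)

/-- the mass of the form factor in an interval around the origin -/
theorem mass_lim (RH : RiemannHypothesis) {κ : ℝ} (hκ : 0 < κ) (hκ1 : κ < 1) :
    Tendsto (fun T => ∫ α in (-κ)..κ, Fr T α) atTop (𝓝 (1 + κ ^ 2)) := by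
  have h := (A_lim RH (R := 2) (by norm_num) hκ hκ1).sub (A_lim RH (R := 1) le_rfl hκ hκ1)
  have e : (2 + 2 * κ ^ 2 - 2 * κ ^ 3 / 3) - (1 + 1 * κ ^ 2 - 2 * κ ^ 3 / 3) = 1 + κ ^ 2 := by ring
  rw [e] at h
  refine h.congr fun T => ?_
  have hFc := Fr_cont T
  have c1 : Continuous fun α : ℝ => (2 - |α|) * Fr T α := by fun_prop
  have c2 : Continuous fun α : ℝ => (1 - |α|) * Fr T α := by fun_prop
  rw [← intervalIntegral.integral_sub (c1.intervalIntegrable _ _) (c2.intervalIntegrable _ _)]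
  refine intervalIntegral.integral_congr fun α _ => ?_
  show (2 - |α|) * Fr T α - (1 - |α|) * Fr T α = Fr T α
  ring

lemma even_split {g : ℝ → ℝ} (hg : Continuous g) (he : ∀ α, g (-α) = g α) (a b : ℝ) :
    ∫ α in (-b)..b, g α = (∫ α in (-a)..a, g α) + 2 * ∫ α in a..b, g α := by
  have ci : ∀ p q : ℝ, IntervalIntegrable g volume p q := fun p q => hg.intervalIntegrable p q
  rw [← intervalIntegral.integral_add_adjacent_intervals (a := -b) (b := -a) (c := b)
    (ci _ _) (ci _ _), ← intervalIntegral.integral_add_adjacent_intervals (a := -a)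
      (b := a) (c := b) (ci _ _) (ci _ _)]
  have h2 := intervalIntegral.integral_comp_neg (a := a) (b := b) g
  have h3 : ∫ α in a..b, g (-α) = ∫ α in a..b, g α :=
    intervalIntegral.integral_congr fun α _ => he α
  rw [h3] at h2
  rw [← h2]
  ring

/-- the mean of the form factor inside of `(0, 1)` -/
theorem mean01 (RH : RiemannHypothesis) {a b : ℝ} (ha : 0 < a) (hab : a < b) (hb : b < 1) :
    Tendsto (fun T => ∫ α in a..b, Fr T α) atTop (𝓝 (∫ α in a..b, mn α)) := by
  have h := ((mass_lim RH (κ := b) (by linarith) hb).sub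
    (mass_lim RH (κ := a) ha (by linarith))).div_const 2
  have e : (1 + b ^ 2 - (1 + a ^ 2)) / 2 = ∫ α in a..b, mn α := by
    have : ∫ α in a..b, mn α = ∫ α in a..b, α := by
      refine intervalIntegral.integral_congr fun α hα => ?_
      rw [uIcc_of_le hab.le] at hα
      show mn α = α
      unfold mn
      rw [abs_of_pos (by linarith [hα.1]), min_eq_left (by linarith [hα.2])]
    rw [this, integral_id]
    ring
  rw [e] at h
  refine h.congr fun T => ?_
  rw [even_split (Fr_cont T) (Fr_even T) a b]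
  ring

/-- **The form factor near the origin against a continuous even weight.** -/
theorem A_gen (RH : RiemannHypothesis) {ψ : ℝ → ℝ} (hc : Continuous ψ) (he : ∀ α, ψ (-α) = ψ α)
    {κ : ℝ} (hκ : 0 < κ) (hκ1 : κ < 1) :
    Tendsto (fun T => ∫ α in (-κ)..κ, ψ α * Fr T α) atTop
      (𝓝 (ψ 0 + 2 * ∫ α in (0 : ℝ)..κ, ψ α * α)) := by
  obtain ⟨M, hM⟩ := (isCompact_Icc (a := -1) (b := (1 : ℝ))).exists_bound_of_continuousOn
    hc.continuousOn
  have hM0 : 0 ≤ M := (norm_nonneg _).trans (hM 0 ⟨by norm_num, by norm_num⟩)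
  rw [Metric.tendsto_nhds]
  intro ε hε
  -- choice of δ
  obtain ⟨e, hed⟩ : ∃ e : ℝ, e = ε / 16 := ⟨_, rfl⟩
  have he0 : 0 < e := by rw [hed]; positivity
  obtain ⟨δ, hδ0, hδκ, hδM, hδψ⟩ : ∃ δ : ℝ, 0 < δ ∧ δ < κ ∧ M * δ ≤ e ∧
      ∀ α : ℝ, |α| ≤ δ → |ψ α - ψ 0| ≤ e := by
    have h0 : ContinuousAt ψ 0 := hc.continuousAt
    obtain ⟨d, hd, h1⟩ := Metric.continuousAt_iff.1 h0 e he0
    obtain ⟨δ, hδ⟩ : ∃ δ : ℝ, δ = min (d / 2) (min (κ / 2) (e / (M + 1))) := ⟨_, rfl⟩
    have p1 : δ ≤ d / 2 := by rw [hδ]; exact min_le_left _ _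
    have p2 : δ ≤ κ / 2 := by rw [hδ]; exact (min_le_right _ _).trans (min_le_left _ _)
    have p3 : δ ≤ e / (M + 1) := by rw [hδ]; exact (min_le_right _ _).trans (min_le_right _ _)
    have p0 : 0 < δ := by
      rw [hδ]
      exact lt_min (by positivity) (lt_min (by positivity) (by positivity))
    refine ⟨δ, p0, by linarith, ?_, fun α hα => ?_⟩
    · calc M * δ ≤ (M + 1) * (e / (M + 1)) := by gcongr; linarith
        _ = e := by field_simp
    · have := h1 (x := α) (by rw [Real.dist_eq, sub_zero]; linarith)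
      rw [Real.dist_eq] at this
      exact this.le
  have hδ1 : δ < 1 := by linarith
  -- the two limits
  have t1 := two_weight (l := atTop) (fun T => Fr_cont T) ((eventually_ge_atTop 10).mono
    fun T hT α => Fr_nonneg hT α) mn_cont mn_nonneg hδκ
    (fun a' b' g1 g2 g3 => mean01 RH (hδ0.trans_le g1) g2 (by linarith)) hc
  have t2 := mass_lim RH hδ0 hδ1
  have ci : ∀ {g : ℝ → ℝ}, Continuous g → ∀ p q : ℝ, IntervalIntegrable g volume p q :=
    fun hg p q => hg.intervalIntegrable p q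
  have e1 : ∫ α in δ..κ, ψ α * mn α = ∫ α in δ..κ, ψ α * α := by
    refine intervalIntegral.integral_congr fun α hα => ?_
    rw [uIcc_of_le hδκ.le] at hα
    show ψ α * mn α = ψ α * α
    unfold mn
    rw [abs_of_pos (by linarith [hα.1]), min_eq_left (by linarith [hα.2])]
  rw [e1] at t1
  have cψ : Continuous fun α : ℝ => ψ α * α := by fun_prop
  have e2 : ∫ α in (0 : ℝ)..κ, ψ α * α = (∫ α in (0 : ℝ)..δ, ψ α * α) + ∫ α in δ..κ, ψ α * α :=
    (intervalIntegral.integral_add_adjacent_intervals (ci cψ _ _) (ci cψ _ _)).symm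
  have e3 : |∫ α in (0 : ℝ)..δ, ψ α * α| ≤ e := by
    have h1 : ∀ α ∈ Set.uIoc 0 δ, ‖ψ α * α‖ ≤ M := by
      intro α hα
      rw [uIoc_of_le hδ0.le] at hα
      rw [norm_mul]
      have h2 := hM α ⟨by linarith [hα.1], by linarith [hα.2]⟩
      have h3 : ‖α‖ ≤ 1 := by
        rw [Real.norm_eq_abs, abs_of_pos hα.1]
        linarith [hα.2]
      calc ‖ψ α‖ * ‖α‖ ≤ M * 1 := by gcongr
        _ = M := mul_one _
    have h2 := intervalIntegral.norm_integral_le_of_norm_le_const h1
    rw [Real.norm_eq_abs, sub_zero, abs_of_pos hδ0] at h2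
    exact h2.trans hδM
  have hψ0 : |ψ 0| ≤ M := hM 0 ⟨by norm_num, by norm_num⟩
  filter_upwards [Metric.tendsto_nhds.1 t1 e he0, t2.eventually (gt_mem_nhds
    (show 1 + δ ^ 2 < 1 + δ ^ 2 + min 1 (e / (M + 1)) by
      have : 0 < min 1 (e / (M + 1)) := lt_min one_pos (by positivity)
      linarith)), t2.eventually (lt_mem_nhds
    (show 1 + δ ^ 2 - min 1 (e / (M + 1)) < 1 + δ ^ 2 by
      have : 0 < min 1 (e / (M + 1)) := lt_min one_pos (by positivity)
      linarith)), eventually_ge_atTop 10] with T h1 h2 h3 hT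
  have hF0 := Fr_nonneg hT
  have hFc := Fr_cont T
  have cF : Continuous fun α : ℝ => ψ α * Fr T α := hc.mul hFc
  rw [Real.dist_eq] at h1 ⊢
  rw [even_split cF (fun α => by rw [he, Fr_even]) δ κ, e2]
  obtain ⟨m, hm⟩ : ∃ m : ℝ, m = ∫ α in (-δ)..δ, Fr T α := ⟨_, rfl⟩
  rw [← hm] at h2 h3
  have hmin1 : min 1 (e / (M + 1)) ≤ 1 := min_le_left _ _
  have hmin2 : min 1 (e / (M + 1)) ≤ e / (M + 1) := min_le_right _ _
  have hδ2 : δ ^ 2 ≤ δ := by nlinarith
  have hm3 : m ≤ 3 := by nlinarith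
  have hm0 : 0 ≤ m := by
    rw [hm]
    exact intervalIntegral.integral_nonneg (by linarith) fun α _ => hF0 α
  have k1 : |(∫ α in (-δ)..δ, ψ α * Fr T α) - ψ 0 * m| ≤ 3 * e := by
    have : (∫ α in (-δ)..δ, ψ α * Fr T α) - ψ 0 * m = ∫ α in (-δ)..δ, (ψ α - ψ 0) * Fr T α := by
      have cg : Continuous fun α : ℝ => ψ 0 * Fr T α := continuous_const.mul hFc
      rw [hm, ← intervalIntegral.integral_const_mul, ← intervalIntegral.integral_sub
        (ci cF _ _) (ci cg _ _)]
      refine intervalIntegral.integral_congr fun α _ => ?_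
      show ψ α * Fr T α - ψ 0 * Fr T α = (ψ α - ψ 0) * Fr T α
      ring
    rw [this]
    have cd : Continuous fun α : ℝ => (ψ α - ψ 0) * Fr T α := by fun_prop
    refine (intervalIntegral.abs_integral_le_integral_abs (by linarith)).trans ?_
    calc ∫ α in (-δ)..δ, |(ψ α - ψ 0) * Fr T α| ≤ ∫ α in (-δ)..δ, e * Fr T α := by
          have cg : Continuous fun α : ℝ => e * Fr T α := continuous_const.mul hFc
          refine intervalIntegral.integral_mono_on (by linarith) (ci cd.abs _ _)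
            (ci cg _ _) fun α hα => ?_
          rw [abs_mul, abs_of_nonneg (hF0 α)]
          exact mul_le_mul_of_nonneg_right (hδψ α (abs_le.2 hα)) (hF0 α)
      _ = e * m := by rw [intervalIntegral.integral_const_mul, hm]
      _ ≤ e * 3 := mul_le_mul_of_nonneg_left hm3 he0.le
      _ = 3 * e := by ring
  have k2 : |ψ 0 * m - ψ 0| ≤ 2 * e := by
    have : ψ 0 * m - ψ 0 = ψ 0 * (m - 1) := by ring
    rw [this, abs_mul]
    have h4 : |m - 1| ≤ δ + e / (M + 1) := by
      rw [abs_le]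
      constructor <;> nlinarith [sq_nonneg δ]
    calc |ψ 0| * |m - 1| ≤ M * (δ + e / (M + 1)) := by gcongr
      _ = M * δ + M * (e / (M + 1)) := by ring
      _ ≤ e + (M + 1) * (e / (M + 1)) := by gcongr; linarith
      _ = 2 * e := by field_simp; ring
  have a1 := abs_le.1 k1
  have a2 := abs_le.1 k2
  have a3 := abs_lt.1 h1
  have a4 := abs_le.1 e3
  rw [abs_lt]
  constructor <;> linarith

end Pool.Agent.Y763.AG
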