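import Pool.Agent.Y763.AG.G1

/-! # General kernels -/

set_option autoImplicit false

open MeasureTheory Set Filter Topology

namespace Pool.Agent.Y763.AG

open Pool.Agent.Y749.Rig Pool.Agent.Y763.AH
open SG (ord NZ)

/-- the weighted kernel at a pair of ordinates -/
noncomputable def gk (ψ : ℝ → ℝ) (T x x' : ℝ) : ℝ :=
  fl ψ ((x - x') * Real.log T / (2 * Real.pi)) * ww (x - x')

lemma ww_symm (x x' : ℝ) : ww (x' - x) = ww (x - x') := by
  unfold ww
  congr 2
  ring

lemma gk_symm (ψ : ℝ → ℝ) (T x x' : ℝ) : gk ψ T x x' = gk ψ T x' x := by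
  unfold gk
  have e1 : (x' - x) * Real.log T / (2 * Real.pi) = -((x - x') * Real.log T / (2 * Real.pi)) := by
    ring
  rw [e1, fl_even, ww_symm]

lemma gk_diag (ψ : ℝ → ℝ) (T x : ℝ) : gk ψ T x x = fl ψ 0 := by
  unfold gk
  rw [sub_self, zero_mul, zero_div, ww_zero, mul_one]

/-- the sum over the pairs of zeros -/
noncomputable def PG (ψ : ℝ → ℝ) (T : ℝ) : ℝ := PS (fun n n' => gk ψ T (ord n) (ord n')) (NZ T)

/-- the pairing of the form factor with a weight -/
theorem SG_eq (hRH : RiemannHypothesis) {ψ : ℝ → ℝ} (hi : Integrable ψ) {T : ℝ} (hT : 10 ≤ T) :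
    ∫ α, ψ α * Fr T α = (fl ψ 0 * (NZ T : ℝ) + 2 * PG ψ T) / nT T := by
  have hL := one_lt_log (show 3 ≤ T by linarith)
  have hpi := Real.pi_pos
  rw [Fr_pair hi, Mp_integral hT (fun x => fl ψ x * ww (2 * Real.pi * x / Real.log T))]
  congr 1
  unfold RR
  have h1 : ∀ s s' : ℂ, mm s * mm s' * (fl ψ ((s.im - s'.im) * Real.log T / (2 * Real.pi)) *
      ww (2 * Real.pi * ((s.im - s'.im) * Real.log T / (2 * Real.pi)) / Real.log T)) =
      mm s * mm s' * gk ψ T s.im s'.im := by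
    intro s s'
    unfold gk
    congr 3
    field_simp
  simp_rw [h1]
  rw [sum_idx2 hRH T (fun x x' => gk ψ T x x'),
    full_sum (fun n n' => gk ψ T (ord n) (ord n')) (fun n n' => gk_symm _ _ _ _)]
  congr 1
  rw [Finset.sum_congr rfl fun n _ => gk_diag ψ T (ord n), Finset.sum_const, Nat.card_Ioc,
    Nat.sub_zero, nsmul_eq_mul, mul_comm]

/-- the limit of the difference -/
theorem J_gen (RH : RiemannHypothesis) {ψ : ℝ → ℝ} (hc : Continuous ψ) (he : ∀ α, ψ (-α) = ψ α)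
    {R κ : ℝ} (hR : 1 ≤ R) (hs : ∀ α, R ≤ |α| → ψ α = 0) (hκ : 0 < κ) (hκ1 : κ < 1) :
    Tendsto (fun T => (∫ α in κ..R, ψ α * Fr T α) - PG ψ T / nT T) atTop
      (𝓝 ((fl ψ 0 - ψ 0) / 2 - ∫ α in (0 : ℝ)..κ, ψ α * α)) := by
  have hR0 : 0 < R := by linarith
  have hi : Integrable ψ := by
    refine hc.integrable_of_hasCompactSupport ?_
    refine HasCompactSupport.of_support_subset_isCompact (isCompact_Icc (a := -R) (b := R)) ?_
    intro x hx
    by_contra hcon
    apply hx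
    apply hs
    by_contra h2
    push Not at h2
    exact hcon ⟨(abs_lt.1 h2).1.le, (abs_lt.1 h2).2.le⟩
  have t1 := ((NZ_lim.const_mul (fl ψ 0)).sub (A_gen RH hc he hκ hκ1)).div_const 2
  have e1 : (fl ψ 0 * 1 - (ψ 0 + 2 * ∫ α in (0 : ℝ)..κ, ψ α * α)) / 2 =
      (fl ψ 0 - ψ 0) / 2 - ∫ α in (0 : ℝ)..κ, ψ α * α := by ring
  rw [e1] at t1
  refine t1.congr' ?_
  filter_upwards [eventually_ge_atTop 10] with T hT
  have h2 := SG_eq RH hi hT
  have cF : Continuous fun α : ℝ => ψ α * Fr T α := hc.mul (Fr_cont T)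
  rw [int_supp hR0 (fun x hx => by rw [hs x hx, zero_mul]),
    even_split cF (fun α => by rw [he, Fr_even]) κ R] at h2
  have h3 : ∫ α in κ..R, ψ α * Fr T α = ((fl ψ 0 * (NZ T : ℝ) + 2 * PG ψ T) / nT T -
      ∫ α in (-κ)..κ, ψ α * Fr T α) / 2 := by linarith
  rw [h3]
  ring

/-- sums over pairs as integrals against the pair measure -/
theorem PS_int (hRH : RiemannHypothesis) {f : ℝ → ℝ} (h0 : ∀ x, 0 ≤ f x) (he : ∀ x, f (-x) = f x)
    {T : ℝ} (hT : 10 ≤ T) :
    PS (fun n n' => f ((ord n - ord n') * Real.log T / (2 * Real.pi))) (NZ T) ≤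
      nT T * ∫ x, f x ∂(Mp T) := by
  have hn := nT_pos hT
  have hint : nT T * ∫ x, f x ∂(Mp T) = RR f (ZZ T) (ZZ T) (Real.log T) := by
    rw [Mp_integral hT f]
    field_simp
  rw [hint]
  unfold RR
  rw [sum_idx2 hRH T (fun x x' => f ((x - x') * Real.log T / (2 * Real.pi))),
    full_sum (fun n n' => f ((ord n - ord n') * Real.log T / (2 * Real.pi))) (fun n n' => by
      have e1 : (ord n' - ord n) * Real.log T / (2 * Real.pi) =
        -((ord n - ord n') * Real.log T / (2 * Real.pi)) := by ring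
      rw [e1, he])]
  have h1 : 0 ≤ ∑ n ∈ Finset.Ioc 0 (NZ T), f ((ord n - ord n) * Real.log T / (2 * Real.pi)) :=
    Finset.sum_nonneg fun n _ => h0 _
  have h2 : 0 ≤ PS (fun n n' => f ((ord n - ord n') * Real.log T / (2 * Real.pi))) (NZ T) :=
    PS_nonneg fun _ _ => h0 _
  linarith

/-- the number of the close pairs -/
theorem close_pairs (hRH : RiemannHypothesis) : ∃ C : ℝ, 0 < C ∧ ∀ᶠ T in atTop,
    PS (fun n n' => (Icc (-1 : ℝ) 1).indicator (fun _ => (1 : ℝ))
      ((ord n - ord n') * Real.log T / (2 * Real.pi))) (NZ T) ≤ C * nT T := by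
  obtain ⟨C, hC, hB⟩ := Mp_bdd
  refine ⟨2 * C, by linarith, ?_⟩
  filter_upwards [hB, eventually_ge_atTop 10] with T h1 hT
  have hn := nT_pos hT
  have hfin := Mp_fin T
  refine (PS_int hRH (f := (Icc (-1 : ℝ) 1).indicator fun _ => (1 : ℝ)) (fun x => ?_) (fun x => ?_)
    hT).trans ?_
  · exact indicator_nonneg (fun _ _ => zero_le_one) x
  · by_cases h : x ∈ Icc (-1 : ℝ) 1
    · rw [indicator_of_mem h, indicator_of_mem (show -x ∈ Icc (-1 : ℝ) 1 from
        ⟨by linarith [h.2], by linarith [h.1]⟩)]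
    · rw [indicator_of_notMem h, indicator_of_notMem]
      intro h2
      exact h ⟨by linarith [h2.2], by linarith [h2.1]⟩
  · have h2 : ∫ x, (Icc (-1 : ℝ) 1).indicator (fun _ => (1 : ℝ)) x ∂(Mp T) ≤ 2 * C := by
      rw [integral_indicator measurableSet_Icc, setIntegral_const, smul_eq_mul, mul_one]
      have h3 : Icc (-1 : ℝ) 1 ⊆ Icc (-1 : ℝ) (-1 + 1) ∪ Icc (0 : ℝ) (0 + 1) := by
        intro y hy
        rcases le_total y 0 with h | h
        · left; exact ⟨hy.1, by linarith⟩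
        · right; exact ⟨h, by linarith [hy.2]⟩
      have h4 : (Mp T).real (Icc (-1 : ℝ) 1) ≤ (Mp T).real (Icc (-1 : ℝ) (-1 + 1)) +
          (Mp T).real (Icc (0 : ℝ) (0 + 1)) :=
        (measureReal_mono h3).trans (measureReal_union_le _ _)
      have h5 : ∀ a : ℝ, (Mp T).real (Icc a (a + 1)) ≤ C := fun a =>
        ENNReal.toReal_le_of_le_ofReal (by linarith) (h1 a)
      linarith [h5 (-1), h5 0]
    nlinarith

end Pool.Agent.Y763.AG
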