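import Pool.Agent.Y763.AG.G2

/-! # The extremal kernel for the gap one half -/

set_option autoImplicit false

open MeasureTheory Set Filter Topology

namespace Pool.Agent.Y763.AG

open Pool.Agent.Y749.Rig Pool.Agent.Y763.AH

/-- the sine part of the weight -/
noncomputable def sn (α : ℝ) : ℝ := Real.sin (Real.pi * min |α| 2)

/-- the weight: `(2 - |α|) / 4 + sin (π |α|) / (4 π)` for `|α| ≤ 2` and zero otherwise -/
noncomputable def wt (α : ℝ) : ℝ := tr 2 α + sn α / (4 * Real.pi)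

lemma sn_cont : Continuous sn := by
  unfold sn
  exact Real.continuous_sin.comp (by fun_prop)

lemma sn_even (α : ℝ) : sn (-α) = sn α := by unfold sn; rw [abs_neg]

lemma sn_supp {α : ℝ} (h : 2 ≤ |α|) : sn α = 0 := by
  unfold sn
  rw [min_eq_right h, mul_comm, Real.sin_two_pi]

lemma wt_cont : Continuous wt := by
  have h1 := tr_cont 2
  have h2 := sn_cont
  unfold wt
  fun_prop

lemma wt_even (α : ℝ) : wt (-α) = wt α := by unfold wt; rw [tr_even, sn_even]

lemma wt_supp {α : ℝ} (h : 2 ≤ |α|) : wt α = 0 := by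
  unfold wt
  rw [tr_supp (by norm_num) α h, sn_supp h]
  simp

lemma wt_eq {α : ℝ} (h0 : 0 ≤ α) (h : α ≤ 2) :
    wt α = (2 - α) / 4 + Real.sin (Real.pi * α) / (4 * Real.pi) := by
  unfold wt sn
  rw [tr_eq (by norm_num) h0 h, abs_of_nonneg h0, min_eq_left h]
  ring

lemma wt_nonneg (α : ℝ) : 0 ≤ wt α := by
  have hpi := Real.pi_pos
  rcases le_or_gt 2 |α| with h | h
  · rw [wt_supp h]
  · have h1 : wt α = wt |α| := by
      rcases abs_cases α with ⟨h2, _⟩ | ⟨h2, _⟩
      · rw [h2]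
      · rw [h2, wt_even]
    rw [h1, wt_eq (abs_nonneg _) h.le]
    have h2 : Real.sin (Real.pi * |α|) = -Real.sin (Real.pi * (2 - |α|)) := by
      rw [show Real.pi * |α| = 2 * Real.pi - Real.pi * (2 - |α|) by ring, Real.sin_two_pi_sub]
    have h3 : Real.sin (Real.pi * (2 - |α|)) ≤ Real.pi * (2 - |α|) :=
      Real.sin_le (mul_nonneg hpi.le (by linarith))
    rw [h2, div_add_div _ _ (by norm_num) (by positivity)]
    apply div_nonneg _ (by positivity)
    nlinarith

lemma sn_int : Integrable sn := by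
  refine sn_cont.integrable_of_hasCompactSupport ?_
  refine HasCompactSupport.of_support_subset_isCompact (isCompact_Icc (a := -2) (b := 2)) ?_
  intro x hx
  by_contra hcon
  apply hx
  apply sn_supp
  by_contra h2
  push Not at h2
  exact hcon ⟨(abs_lt.1 h2).1.le, (abs_lt.1 h2).2.le⟩

lemma wt_int : Integrable wt := (tr_int (by norm_num)).add (sn_int.div_const _)

lemma int_sin (a : ℝ) : ∫ α in (0 : ℝ)..2, Real.sin (a * α) = (1 - Real.cos (a * 2)) / a := by
  rcases eq_or_ne a 0 with h | h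
  · subst h
    simp
  · rw [intervalIntegral.integral_comp_mul_left (fun x => Real.sin x) h, integral_sin, mul_zero,
      Real.cos_zero, smul_eq_mul]
    ring

lemma fl_sn (x : ℝ) : fl sn x = 4 / Real.pi * (Real.sin (2 * Real.pi * x) ^ 2 / (1 - 4 * x ^ 2)) := by
  have hpi := Real.pi_pos
  have h1 : fl sn x = 2 * ∫ α in (0 : ℝ)..2, Real.sin (Real.pi * α) * Real.cos (2 * Real.pi * α * x) := by
    unfold fl
    have hc : Continuous fun α : ℝ => sn α * Real.cos (2 * Real.pi * α * x) := by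
      have := sn_cont
      fun_prop
    rw [int_supp (h := 2) (by norm_num) (fun α hα => by rw [sn_supp hα, zero_mul]),
      ← intervalIntegral.integral_add_adjacent_intervals (b := 0) (hc.intervalIntegrable _ _)
      (hc.intervalIntegrable _ _)]
    have h2 := intervalIntegral.integral_comp_neg (a := (0 : ℝ)) (b := 2)
      (fun α : ℝ => sn α * Real.cos (2 * Real.pi * α * x))
    rw [neg_zero] at h2
    rw [← h2]
    have h3 : ∫ α in (0 : ℝ)..2, sn (-α) * Real.cos (2 * Real.pi * -α * x) =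
        ∫ α in (0 : ℝ)..2, Real.sin (Real.pi * α) * Real.cos (2 * Real.pi * α * x) := by
      refine intervalIntegral.integral_congr fun α hα => ?_
      rw [uIcc_of_le (by norm_num)] at hα
      show sn (-α) * Real.cos (2 * Real.pi * -α * x) = _
      rw [sn_even, show 2 * Real.pi * -α * x = -(2 * Real.pi * α * x) by ring, Real.cos_neg]
      unfold sn
      rw [abs_of_nonneg hα.1, min_eq_left hα.2]
    have h4 : ∫ α in (0 : ℝ)..2, sn α * Real.cos (2 * Real.pi * α * x) =
        ∫ α in (0 : ℝ)..2, Real.sin (Real.pi * α) * Real.cos (2 * Real.pi * α * x) := by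
      refine intervalIntegral.integral_congr fun α hα => ?_
      rw [uIcc_of_le (by norm_num)] at hα
      show sn α * Real.cos (2 * Real.pi * α * x) = _
      unfold sn
      rw [abs_of_nonneg hα.1, min_eq_left hα.2]
    rw [h3, h4]
    ring
  have h2 : ∀ α : ℝ, Real.sin (Real.pi * α) * Real.cos (2 * Real.pi * α * x) =
      (Real.sin (Real.pi * (1 + 2 * x) * α) + Real.sin (Real.pi * (1 - 2 * x) * α)) / 2 := by
    intro α
    have e1 : Real.pi * (1 + 2 * x) * α = Real.pi * α + 2 * Real.pi * α * x := by ring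
    have e2 : Real.pi * (1 - 2 * x) * α = Real.pi * α - 2 * Real.pi * α * x := by ring
    rw [e1, e2, Real.sin_add, Real.sin_sub]
    ring
  have c1 : ∀ a : ℝ, IntervalIntegrable (fun α : ℝ => Real.sin (a * α)) volume 0 2 := fun a => by
    apply Continuous.intervalIntegrable
    fun_prop
  rw [h1]
  simp_rw [h2]
  rw [intervalIntegral.integral_div, intervalIntegral.integral_add (c1 _) (c1 _), int_sin, int_sin]
  have h3 : Real.cos (Real.pi * (1 + 2 * x) * 2) = 1 - 2 * Real.sin (2 * Real.pi * x) ^ 2 := by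
    rw [show Real.pi * (1 + 2 * x) * 2 = 2 * (2 * Real.pi * x) + 2 * Real.pi by ring,
      Real.cos_add_two_pi, Real.cos_two_mul, Real.cos_sq']
    ring
  have h4 : Real.cos (Real.pi * (1 - 2 * x) * 2) = 1 - 2 * Real.sin (2 * Real.pi * x) ^ 2 := by
    rw [show Real.pi * (1 - 2 * x) * 2 = 2 * Real.pi - 2 * (2 * Real.pi * x) by ring,
      Real.cos_two_pi_sub, Real.cos_two_mul, Real.cos_sq']
    ring
  rw [h3, h4]
  rcases eq_or_ne (1 + 2 * x) 0 with h5 | h5
  · have hx : x = -1 / 2 := by linarith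
    have hs : Real.sin (2 * Real.pi * x) = 0 := by
      rw [hx, show 2 * Real.pi * (-1 / 2) = -Real.pi by ring, Real.sin_neg, Real.sin_pi, neg_zero]
    rw [hs]
    simp
  rcases eq_or_ne (1 - 2 * x) 0 with h6 | h6
  · have hx : x = 1 / 2 := by linarith
    have hs : Real.sin (2 * Real.pi * x) = 0 := by
      rw [hx, show 2 * Real.pi * (1 / 2) = Real.pi by ring, Real.sin_pi]
    rw [hs]
    simp
  have h7 : 1 - 4 * x ^ 2 = (1 + 2 * x) * (1 - 2 * x) := by ring
  rw [h7]
  obtain ⟨p, hp⟩ : ∃ p : ℝ, p = 1 + 2 * x := ⟨_, rfl⟩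
  obtain ⟨q, hq⟩ : ∃ q : ℝ, q = 1 - 2 * x := ⟨_, rfl⟩
  obtain ⟨S, hS⟩ : ∃ S : ℝ, S = Real.sin (2 * Real.pi * x) := ⟨_, rfl⟩
  have hpq : p + q = 2 := by rw [hp, hq]; ring
  rw [← hp] at h5
  rw [← hq] at h6
  rw [← hp, ← hq, ← hS]
  field_simp
  have : q = 2 - p := by linarith
  rw [this]
  ring

/-- the kernel -/
lemma fl_wt (x : ℝ) : fl wt x = fl (tr 2) x + Real.sin (2 * Real.pi * x) ^ 2 / (Real.pi ^ 2 * (1 - 4 * x ^ 2)) := by
  have hpi := Real.pi_pos
  have h1 : fl wt x = fl (tr 2) x + 1 / (4 * Real.pi) * fl sn x := by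
    unfold fl
    rw [← integral_const_mul, ← integral_add]
    · refine integral_congr_ae (ae_of_all _ fun α => ?_)
      simp only
      unfold wt
      ring
    · refine (tr_int (by norm_num)).mul_bdd (c := 1) (by fun_prop) (ae_of_all _ fun α => ?_)
      rw [Real.norm_eq_abs]
      exact Real.abs_cos_le_one _
    · refine Integrable.const_mul ?_ _
      refine sn_int.mul_bdd (c := 1) (by fun_prop) (ae_of_all _ fun α => ?_)
      rw [Real.norm_eq_abs]
      exact Real.abs_cos_le_one _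
  rw [h1, fl_sn]
  congr 1
  rcases eq_or_ne (1 - 4 * x ^ 2) 0 with h | h
  · rw [h]
    simp
  · field_simp

lemma fl_wt_zero : fl wt 0 = 1 := by
  rw [fl_wt, fl_tr_zero (by norm_num)]
  simp

/-- the product formula -/
lemma fl_wt_mul (x : ℝ) : fl wt x * (1 - 4 * x ^ 2) = fl (tr 2) x := by
  have hpi := Real.pi_pos
  rcases eq_or_ne x 0 with h0 | h0
  · subst h0
    rw [fl_wt_zero, fl_tr_zero (by norm_num)]
    norm_num
  · rw [fl_wt, fl_tr (by norm_num) h0]
    rcases eq_or_ne (1 - 4 * x ^ 2) 0 with h | h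
    · have h4 : x ^ 2 = 1 / 4 := by linarith
      have hx : x = 1 / 2 ∨ x = -1 / 2 := by
        have : (x - 1 / 2) * (x + 1 / 2) = 0 := by nlinarith
        rcases mul_eq_zero.1 this with h5 | h5
        · left; linarith
        · right; linarith
      have hs : Real.sin (Real.pi * 2 * x) = 0 := by
        rcases hx with hx | hx
        · rw [hx, show Real.pi * 2 * (1 / 2) = Real.pi by ring, Real.sin_pi]
        · rw [hx, show Real.pi * 2 * (-1 / 2) = -Real.pi by ring, Real.sin_neg, Real.sin_pi, neg_zero]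
      rw [h, hs]
      simp
    · rw [show 2 * Real.pi * x = Real.pi * 2 * x by ring]
      obtain ⟨S, hS⟩ : ∃ S : ℝ, S = Real.sin (Real.pi * 2 * x) := ⟨_, rfl⟩
      rw [← hS]
      have h1 : S ^ 2 / (Real.pi ^ 2 * (1 - 4 * x ^ 2)) * (1 - 4 * x ^ 2) = S ^ 2 / Real.pi ^ 2 := by
        obtain ⟨w, hw⟩ : ∃ w : ℝ, w = 1 - 4 * x ^ 2 := ⟨_, rfl⟩
        rw [← hw] at h ⊢
        field_simp
      rw [add_mul, h1]
      field_simp
      ring

lemma abs_fl_wt (x : ℝ) : |fl wt x| ≤ 1 := by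
  have h1 : |fl wt x| ≤ ∫ α, wt α := by
    unfold fl
    rw [← Real.norm_eq_abs]
    refine norm_integral_le_of_norm_le wt_int (ae_of_all _ fun α => ?_)
    rw [norm_mul, Real.norm_eq_abs, Real.norm_eq_abs, abs_of_nonneg (wt_nonneg α)]
    exact mul_le_of_le_one_right (wt_nonneg α) (Real.abs_cos_le_one _)
  have h2 : ∫ α, wt α = fl wt 0 := by
    unfold fl
    simp
  rw [h2, fl_wt_zero] at h1
  exact h1

lemma fl_wt_half : fl wt (1 / 2) = 0 := by
  rw [fl_wt, fl_tr (by norm_num) (by norm_num)]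
  have e1 : Real.pi * 2 * (1 / 2) = Real.pi := by ring
  have e2 : 2 * Real.pi * (1 / 2) = Real.pi := by ring
  rw [e1, e2, Real.sin_pi]
  simp

lemma fl_wt_nonpos {x : ℝ} (hx : 1 / 2 ≤ |x|) : fl wt x ≤ 0 := by
  have h1 := fl_wt_mul x
  have h2 := fl_tr_nonneg (show (0 : ℝ) < 2 by norm_num) x
  rcases hx.eq_or_lt with h3 | h3
  · have h4 : x = 1 / 2 ∨ x = -(1 / 2) := by
      rcases abs_cases x with ⟨h5, _⟩ | ⟨h5, _⟩
      · left; linarith
      · right; linarith
    rcases h4 with h4 | h4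
    · rw [h4, fl_wt_half]
    · rw [h4, fl_even, fl_wt_half]
  · have h4 : 1 - 4 * x ^ 2 < 0 := by
      rw [← sq_abs]
      nlinarith
    by_contra hcon
    push Not at hcon
    nlinarith

/-- comparison with the square of the sine, away from one half -/
lemma fl_wt_le {ω : ℝ} (hω : 0 < ω) {x : ℝ} (h : ω ≤ |(|x| - 1 / 2)|) :
    |fl wt x| ≤ 1 / (2 * ω) * fl (tr 2) x := by
  have h1 := fl_wt_mul x
  have h2 := fl_tr_nonneg (show (0 : ℝ) < 2 by norm_num) x
  have h3 : 2 * ω ≤ |1 - 4 * x ^ 2| := by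
    have e : 1 - 4 * x ^ 2 = -(2 * (|x| - 1 / 2)) * (1 + 2 * |x|) := by
      have := sq_abs x
      nlinarith
    rw [e, abs_mul, abs_neg, abs_mul, abs_two]
    have h4 : 1 ≤ |(1 + 2 * |x| : ℝ)| := by
      rw [abs_of_pos (by positivity)]
      have := abs_nonneg x
      linarith
    nlinarith [abs_nonneg (|x| - 1 / 2)]
  have h4 : |fl wt x| * |1 - 4 * x ^ 2| = fl (tr 2) x := by
    rw [← abs_mul, h1, abs_of_nonneg h2]
  have h5 := abs_nonneg (fl wt x)
  rw [div_mul_eq_mul_div, one_mul, le_div_iff₀ (by positivity)]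
  nlinarith

/-- comparison with the square of the sine, in the other direction -/
lemma fl_tr_le {u x : ℝ} (h : |x| ≤ u) : fl (tr 2) x ≤ (1 + 4 * u ^ 2) * |fl wt x| := by
  have h1 := fl_wt_mul x
  have h2 := fl_tr_nonneg (show (0 : ℝ) < 2 by norm_num) x
  have h3 : |1 - 4 * x ^ 2| ≤ 1 + 4 * u ^ 2 := by
    have : x ^ 2 ≤ u ^ 2 := by
      rw [← sq_abs x]
      exact pow_le_pow_left₀ (abs_nonneg _) h 2
    rw [abs_le]
    constructor <;> nlinarith [sq_nonneg x]
  calc fl (tr 2) x = |fl wt x| * |1 - 4 * x ^ 2| := by rw [← abs_mul, h1, abs_of_nonneg h2]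
    _ ≤ |fl wt x| * (1 + 4 * u ^ 2) := mul_le_mul_of_nonneg_left h3 (abs_nonneg _)
    _ = _ := mul_comm _ _

end Pool.Agent.Y763.AG
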