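import Pool.Agent.Y763.AG.G3

/-! # Pair sums for the extremal kernel and gaps below one half -/

set_option autoImplicit false

open MeasureTheory Set Filter Topology

namespace Pool.Agent.Y763.AG

open Pool.Agent.Y749.Rig Pool.Agent.Y763.AH
open SG (ord NZ)
open H177.Lat (del)

/-- the spacing is smaller than one half by more than `δ` -/
def Sm (δ : ℝ) (n : ℕ) : Prop := del n < 1 / 2 - δ

open Classical in
/-- the small spacings up to `T` -/
noncomputable def ST (δ T : ℝ) : Finset ℕ := (Finset.Ioc 0 (NZ T)).filter (Sm δ)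

/-- the positive part of the pair sum -/
noncomputable def PP (T : ℝ) : ℝ := PS (fun n n' => max 0 (gk wt T (ord n) (ord n'))) (NZ T)

lemma PG_le_PP (T : ℝ) : PG wt T ≤ PP T := PS_mono fun _ _ _ _ _ => le_max_right _ _

lemma PP_nonneg (T : ℝ) : 0 ≤ PP T := PS_nonneg fun _ _ => le_max_left _ _

/-- summation over the distances of the indices -/
lemma sum_j {N K : ℕ} {F : ℕ → ℝ} {M1 η : ℝ} {a : ℕ → ℝ} (hM1 : 0 ≤ M1) (ha0 : ∀ j, 0 ≤ a j)
    (hasum : ∑ j ∈ Finset.Ico (K + 1) N, a j ≤ η)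
    (h1 : ∀ j ∈ Finset.Ico 1 N, j ≤ K → F j ≤ M1) (h2 : ∀ j ∈ Finset.Ico 1 N, K < j → F j ≤ N * a j) :
    ∑ j ∈ Finset.Ico 1 N, F j ≤ K * M1 + N * η := by
  classical
  have h3 : ∑ j ∈ Finset.Ico 1 N, F j ≤ ∑ j ∈ Finset.Ico 1 N,
      ((if j ≤ K then M1 else 0) + (if K < j then N * a j else 0)) := by
    refine Finset.sum_le_sum fun j hj => ?_
    rcases le_or_gt j K with h | h
    · rw [if_pos h, if_neg (not_lt.2 h), add_zero]
      exact h1 j hj h
    · rw [if_neg (not_le.2 h), if_pos h, zero_add]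
      exact h2 j hj h
  rw [Finset.sum_add_distrib] at h3
  have h4 : ∑ j ∈ Finset.Ico 1 N, (if j ≤ K then M1 else 0) ≤ K * M1 := by
    rw [← Finset.sum_filter, Finset.sum_const, nsmul_eq_mul]
    apply mul_le_mul_of_nonneg_right _ hM1
    have : ((Finset.Ico 1 N).filter (fun j => j ≤ K)).card ≤ (Finset.Ioc 0 K).card := by
      apply Finset.card_le_card
      intro j hj'
      rw [Finset.mem_filter, Finset.mem_Ico] at hj'
      rw [Finset.mem_Ioc]
      omega
    rw [Nat.card_Ioc, Nat.sub_zero] at this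
    exact_mod_cast this
  have h5 : ∑ j ∈ Finset.Ico 1 N, (if K < j then (N : ℝ) * a j else 0) ≤ N * η := by
    rw [← Finset.sum_filter]
    have h6 : ∑ j ∈ (Finset.Ico 1 N).filter (fun j => K < j), (N : ℝ) * a j ≤
        ∑ j ∈ Finset.Ico (K + 1) N, (N : ℝ) * a j := by
      apply Finset.sum_le_sum_of_subset_of_nonneg
      · intro j hj'
        rw [Finset.mem_filter, Finset.mem_Ico] at hj'
        rw [Finset.mem_Ico]
        omega
      · intro j _ _
        exact mul_nonneg (Nat.cast_nonneg _) (ha0 j)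
    refine h6.trans ?_
    rw [← Finset.mul_sum]
    exact mul_le_mul_of_nonneg_left hasum (Nat.cast_nonneg _)
  linarith

open Classical in
/-- **The positive part of the pair sum is bounded by the number of the small spacings.** -/
theorem E2 (hRH : RiemannHypothesis) {η : ℝ} (hη : 0 < η) : ∃ δ : ℝ, 0 < δ ∧
    ∃ C : ℝ, 0 < C ∧ ∀ᶠ T in atTop, PP T / nT T ≤ C * ((ST δ T).card / nT T) + η := by
  have hpi := Real.pi_pos
  obtain ⟨K, hK1, hcl⟩ := clus hRH 1 (η := η / 8) (by positivity)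
  have hK0 : (0 : ℝ) < K := by exact_mod_cast hK1
  obtain ⟨δ0, hδ0, hδ1, hear⟩ := early (η := η / (4 * K)) (by positivity)
  obtain ⟨η', hη'⟩ : ∃ η' : ℝ, η' = η / (8 * K) := ⟨_, rfl⟩
  have hη'0 : 0 < η' := by rw [hη']; positivity
  obtain ⟨ω, hω0, hω⟩ : ∃ ω : ℝ, 0 < ω ∧ ∀ x : ℝ, |x - 1 / 2| < ω → fl wt x ≤ η' := by
    have h1 : ContinuousAt (fl wt) (1 / 2) := (fl_cont wt_int).continuousAt
    obtain ⟨ω, hω, h2⟩ := Metric.continuousAt_iff.1 h1 η' hη'0
    refine ⟨ω, hω, fun x hx => ?_⟩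
    have h3 := h2 (x := x) (by rwa [Real.dist_eq])
    rw [fl_wt_half, Real.dist_eq, sub_zero] at h3
    exact (le_abs_self _).trans h3.le
  obtain ⟨δ, hδ⟩ : ∃ δ : ℝ, δ = ω / 2 := ⟨_, rfl⟩
  have hδp : 0 < δ := by rw [hδ]; positivity
  refine ⟨δ, hδp, K, hK0, ?_⟩
  have hNZ2 : ∀ᶠ T in atTop, (NZ T : ℝ) / nT T < 2 := NZ_lim.eventually (gt_mem_nhds (by norm_num))
  filter_upwards [hear, eventually_ge_atTop 10, hNZ2,
    Real.tendsto_log_atTop.eventually_ge_atTop ((1 + |Real.log δ0|) / (δ / 2))] with T t2 hT t3 t4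
  obtain ⟨a, ha, ha0, hasum⟩ := hcl T hT
  have hn := nT_pos hT
  have hL := one_lt_log (show 3 ≤ T by linarith)
  have hL0 : 0 < Real.log T := by linarith
  rw [div_lt_iff₀ hn] at t3
  obtain ⟨N, hN⟩ : ∃ N : ℕ, N = NZ T := ⟨_, rfl⟩
  rw [← hN] at t3 ha
  have hgk : ∀ n j : ℕ, gk wt T (ord n) (ord (n + j)) =
      fl wt ((ord (n + j) - ord n) * Real.log T / (2 * Real.pi)) * ww (ord n - ord (n + j)) := by
    intro n j
    unfold gk
    have e1 : (ord n - ord (n + j)) * Real.log T / (2 * Real.pi) =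
      -((ord (n + j) - ord n) * Real.log T / (2 * Real.pi)) := by ring
    rw [e1, fl_even]
  have hneg : ∀ n j : ℕ, 1 / 2 ≤ (ord (n + j) - ord n) * Real.log T / (2 * Real.pi) →
      gk wt T (ord n) (ord (n + j)) ≤ 0 := by
    intro n j h
    rw [hgk]
    refine mul_nonpos_of_nonpos_of_nonneg (fl_wt_nonpos ?_) (ww_pos _).le
    exact h.trans (le_abs_self _)
  -- the near pairs
  have near : ∀ n j : ℕ, 1 ≤ n → 1 ≤ j → n + j ≤ N → ¬ Sm δ n → δ0 * T < ord n →
      max 0 (gk wt T (ord n) (ord (n + j))) ≤ η' := by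
    intro n j hn1 hj hnj hbad hord
    have b1 : ord n ≤ ord (n + 1) := SG.ord_mono hn1 (Nat.le_succ n)
    have b2 : ord (n + 1) ≤ ord (n + j) := SG.ord_mono (by omega) (by omega)
    have b3 : ord (n + 1) ≤ T := (SG.ord_le_iff (by omega) T).2 (by omega)
    apply max_le hη'0.le
    rcases le_or_gt (1 / 2) ((ord (n + j) - ord n) * Real.log T / (2 * Real.pi)) with h1 | h1
    · exact (hneg n j h1).trans hη'0.le
    · rw [hgk]
      obtain ⟨x, hx⟩ : ∃ x : ℝ, x = (ord (n + j) - ord n) * Real.log T / (2 * Real.pi) := ⟨_, rfl⟩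
      obtain ⟨y, hy⟩ : ∃ y : ℝ, y = (ord (n + 1) - ord n) * Real.log T / (2 * Real.pi) := ⟨_, rfl⟩
      rw [← hx] at h1 ⊢
      have hy0 : 0 ≤ y := by
        rw [hy]
        have : 0 ≤ ord (n + 1) - ord n := by linarith
        positivity
      have hyx : y ≤ x := by
        rw [hx, hy]
        apply div_le_div_of_nonneg_right _ (by positivity)
        exact mul_le_mul_of_nonneg_right (by linarith) hL0.le
      have h2 := cmp hT hδ0 hord.le b1 b3
      rw [← hy] at h2
      have h3 : y * ((1 + |Real.log δ0|) / Real.log T) ≤ δ / 2 := by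
        have h4 : y * ((1 + |Real.log δ0|) / Real.log T) ≤ 1 * ((1 + |Real.log δ0|) / Real.log T) := by
          apply mul_le_mul_of_nonneg_right (by linarith)
          have := abs_nonneg (Real.log δ0)
          positivity
        refine h4.trans ?_
        rw [one_mul, div_le_iff₀ hL0]
        rw [div_le_iff₀ (by positivity)] at t4
        linarith
      have h5 : |del n - y| ≤ δ / 2 := h2.trans h3
      have h6 : 1 / 2 - δ ≤ del n := not_lt.1 hbad
      have h7 := (abs_le.1 h5).2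
      have h8 : fl wt x ≤ η' := by
        apply hω
        rw [abs_lt]
        constructor <;> linarith
      rcases le_or_gt (fl wt x) 0 with h9 | h9
      · exact (mul_nonpos_of_nonpos_of_nonneg h9 (ww_pos _).le).trans hη'0.le
      · exact (mul_le_of_le_one_right h9.le (ww_le _)).trans h8
  have hle1 : ∀ n j : ℕ, max 0 (gk wt T (ord n) (ord (n + j))) ≤ 1 := by
    intro n j
    apply max_le zero_le_one
    unfold gk
    have h1 := abs_fl_wt ((ord n - ord (n + j)) * Real.log T / (2 * Real.pi))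
    have h2 := (le_abs_self _).trans h1
    have h3 := ww_pos (ord n - ord (n + j))
    have h4 := ww_le (ord n - ord (n + j))
    rcases le_or_gt (fl wt ((ord n - ord (n + j)) * Real.log T / (2 * Real.pi))) 0 with h5 | h5
    · exact (mul_nonpos_of_nonpos_of_nonneg h5 h3.le).trans zero_le_one
    · exact mul_le_one₀ h2 h3.le h4
  -- the bound for each distance of the indices
  obtain ⟨B, hB⟩ : ∃ B : ℕ, B = (ST δ T).card := ⟨_, rfl⟩
  obtain ⟨M1, hM1⟩ : ∃ M1 : ℝ, M1 = B + NZ (δ0 * T) + N * η' := ⟨_, rfl⟩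
  have hM10 : 0 ≤ M1 := by rw [hM1]; positivity
  have hj1 : ∀ j ∈ Finset.Ico 1 N, j ≤ K →
      ∑ n ∈ Finset.Ioc 0 (N - j), max 0 (gk wt T (ord n) (ord (n + j))) ≤ M1 := by
    intro j hj _
    rw [Finset.mem_Ico] at hj
    have hp : ∀ n ∈ Finset.Ioc 0 (N - j), max 0 (gk wt T (ord n) (ord (n + j))) ≤
        (if Sm δ n then (1 : ℝ) else 0) + (if ord n ≤ δ0 * T then (1 : ℝ) else 0) + η' := by
      intro n hn'
      rw [Finset.mem_Ioc] at hn'
      have g1 : (0 : ℝ) ≤ if Sm δ n then (1 : ℝ) else 0 := by split_ifs <;> norm_num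
      have g2 : (0 : ℝ) ≤ if ord n ≤ δ0 * T then (1 : ℝ) else 0 := by split_ifs <;> norm_num
      by_cases c1 : ord n ≤ δ0 * T
      · have := hle1 n j
        rw [if_pos c1]
        linarith
      · by_cases c2 : Sm δ n
        · have := hle1 n j
          rw [if_pos c2]
          linarith
        · have h1 := near n j hn'.1 hj.1 (by omega) c2 (not_le.1 c1)
          linarith
    refine (Finset.sum_le_sum hp).trans ?_
    rw [Finset.sum_add_distrib, Finset.sum_add_distrib, hM1]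
    have s1 : ∑ n ∈ Finset.Ioc 0 (N - j), (if Sm δ n then (1 : ℝ) else 0) ≤ B := by
      rw [← Finset.sum_filter, Finset.sum_const, nsmul_eq_mul, mul_one]
      have h2 : ((Finset.Ioc 0 (N - j)).filter (fun n => Sm δ n)).card ≤ B := by
        rw [hB]
        apply Finset.card_le_card
        intro n hn'
        rw [Finset.mem_filter, Finset.mem_Ioc] at hn'
        unfold ST
        rw [Finset.mem_filter, Finset.mem_Ioc, ← hN]
        exact ⟨⟨by omega, by omega⟩, hn'.2⟩
      exact_mod_cast h2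
    have s2 : ∑ n ∈ Finset.Ioc 0 (N - j), (if ord n ≤ δ0 * T then (1 : ℝ) else 0) ≤
        NZ (δ0 * T) := by
      rw [← Finset.sum_filter, Finset.sum_const, nsmul_eq_mul, mul_one]
      have h2 : ((Finset.Ioc 0 (N - j)).filter (fun n => ord n ≤ δ0 * T)).card ≤
          (Finset.Ioc 0 (NZ (δ0 * T))).card := by
        apply Finset.card_le_card
        intro n hn'
        rw [Finset.mem_filter, Finset.mem_Ioc] at hn'
        rw [Finset.mem_Ioc]
        exact ⟨hn'.1.1, (SG.ord_le_iff hn'.1.1 _).1 hn'.2⟩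
      rw [Nat.card_Ioc, Nat.sub_zero] at h2
      exact_mod_cast h2
    have s3 : ∑ n ∈ Finset.Ioc 0 (N - j), η' ≤ N * η' := by
      rw [Finset.sum_const, Nat.card_Ioc, Nat.sub_zero, nsmul_eq_mul]
      have : ((N - j : ℕ) : ℝ) ≤ N := by exact_mod_cast Nat.sub_le _ _
      exact mul_le_mul_of_nonneg_right this hη'0.le
    linarith
  have hj2 : ∀ j ∈ Finset.Ico 1 N, K < j →
      ∑ n ∈ Finset.Ioc 0 (N - j), max 0 (gk wt T (ord n) (ord (n + j))) ≤ N * a j := by
    intro j _ hjK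
    have hp : ∀ n ∈ Finset.Ioc 0 (N - j), max 0 (gk wt T (ord n) (ord (n + j))) ≤
        (if (ord (n + j) - ord n) * Real.log T / (2 * Real.pi) < ((1 : ℕ) : ℝ) then (1 : ℝ) else 0) := by
      intro n _
      split_ifs with h1
      · exact hle1 n j
      · push Not at h1
        apply max_le le_rfl
        apply hneg n j
        refine le_trans ?_ h1
        norm_num
    refine (Finset.sum_le_sum hp).trans ?_
    rw [← Finset.sum_filter _ (fun _ => (1 : ℝ)), Finset.sum_const, nsmul_eq_mul, mul_one]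
    exact ha j hjK
  have hPP : PP T ≤ K * M1 + N * (η / 8) := by
    have := sum_j hM10 ha0 (hasum N) hj1 hj2
    unfold PP AH.PS
    rw [← hN]
    exact this
  have hK' : (K : ℝ) * NZ (δ0 * T) ≤ η / 4 * nT T := by
    have h1 : (K : ℝ) * NZ (δ0 * T) ≤ K * (η / (4 * K) * nT T) :=
      mul_le_mul_of_nonneg_left t2 hK0.le
    have e : (K : ℝ) * (η / (4 * K) * nT T) = η / 4 * nT T := by field_simp
    linarith
  have hK'' : (K : ℝ) * (N * η') ≤ η / 4 * nT T := by
    have e : (K : ℝ) * (N * η') = η / 8 * N := by rw [hη']; field_simp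
    rw [e]
    nlinarith
  have hN8 : (N : ℝ) * (η / 8) ≤ η / 4 * nT T := by nlinarith
  rw [hM1] at hPP
  have hfinal : PP T ≤ K * B + η * nT T := by
    have : 0 < η * nT T := by positivity
    nlinarith
  rw [div_le_iff₀ hn]
  have e : ((K : ℝ) * ((ST δ T).card / nT T) + η) * nT T = K * (ST δ T).card + η * nT T := by
    field_simp
  rw [e, ← hB]
  exact hfinal

/-- the pair sum of the extremal kernel against the pair sum of the square of the sine -/
theorem E3 (hRH : RiemannHypothesis) {η : ℝ} (hη : 0 < η) : ∃ C : ℝ, 0 < C ∧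
    ∀ᶠ T in atTop, |PG wt T| / nT T ≤ C * (AH.PT 2 T / nT T) + η := by
  obtain ⟨C1, hC1, hcp⟩ := close_pairs hRH
  obtain ⟨η', hη'⟩ : ∃ η' : ℝ, η' = η / C1 := ⟨_, rfl⟩
  have hη'0 : 0 < η' := by rw [hη']; positivity
  obtain ⟨ω, hω0, hω1, hω⟩ : ∃ ω : ℝ, 0 < ω ∧ ω ≤ 1 / 2 ∧ ∀ x : ℝ, |(|x| - 1 / 2)| < ω →
      |fl wt x| ≤ η' := by
    have h1 : ContinuousAt (fl wt) (1 / 2) := (fl_cont wt_int).continuousAt
    obtain ⟨ω, hω, h2⟩ := Metric.continuousAt_iff.1 h1 η' hη'0
    refine ⟨min ω (1 / 2), lt_min hω (by norm_num), min_le_right _ _, fun x hx => ?_⟩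
    have h3 := h2 (x := |x|) (by
      rw [Real.dist_eq]
      exact hx.trans_le (min_le_left _ _))
    rw [fl_wt_half, Real.dist_eq, sub_zero] at h3
    have h4 : fl wt |x| = fl wt x := by
      rcases abs_cases x with ⟨h5, _⟩ | ⟨h5, _⟩
      · rw [h5]
      · rw [h5, fl_even]
    rw [h4] at h3
    exact h3.le
  refine ⟨1 / (2 * ω), by positivity, ?_⟩
  filter_upwards [hcp, eventually_ge_atTop 10] with T h1 hT
  have hn := nT_pos hT
  have hpt : ∀ x x' : ℝ, |gk wt T x x'| ≤ 1 / (2 * ω) * gw 2 T x x' +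
      η' * (Icc (-1 : ℝ) 1).indicator (fun _ => (1 : ℝ)) ((x - x') * Real.log T / (2 * Real.pi)) := by
    intro x x'
    unfold gk gw
    obtain ⟨z, hz⟩ : ∃ z : ℝ, z = (x - x') * Real.log T / (2 * Real.pi) := ⟨_, rfl⟩
    rw [← hz, abs_mul, abs_of_pos (ww_pos _)]
    have h2 := fl_tr_nonneg (show (0 : ℝ) < 2 by norm_num) z
    have h3 := ww_pos (x - x')
    have h4 := ww_le (x - x')
    have h6 : 0 ≤ (Icc (-1 : ℝ) 1).indicator (fun _ => (1 : ℝ)) z :=
      indicator_nonneg (fun _ _ => zero_le_one) z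
    rcases le_or_gt ω |(|z| - 1 / 2)| with h5 | h5
    · have h7 := mul_le_mul_of_nonneg_right (fl_wt_le hω0 h5) h3.le
      have h8 : 0 ≤ η' * (Icc (-1 : ℝ) 1).indicator (fun _ => (1 : ℝ)) z := by positivity
      linarith
    · have h7 : z ∈ Icc (-1 : ℝ) 1 := by
        have := (abs_lt.1 h5).2
        exact abs_le.1 (by linarith)
      rw [indicator_of_mem h7, mul_one]
      have h8 := hω z h5
      have h9 : |fl wt z| * ww (x - x') ≤ η' * 1 :=
        mul_le_mul h8 h4 h3.le hη'0.le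
      have h10 : 0 ≤ 1 / (2 * ω) * (fl (tr 2) z * ww (x - x')) := by positivity
      linarith
  have h2 : |PG wt T| ≤ 1 / (2 * ω) * AH.PT 2 T + η' * (C1 * nT T) := by
    have h3 : |PG wt T| ≤ PS (fun n n' => |gk wt T (ord n) (ord n')|) (NZ T) := by
      unfold PG AH.PS
      refine (Finset.abs_sum_le_sum_abs _ _).trans ?_
      exact Finset.sum_le_sum fun j _ => Finset.abs_sum_le_sum_abs _ _
    have h4 : PS (fun n n' => |gk wt T (ord n) (ord n')|) (NZ T) ≤ PS (fun n n' =>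
        1 / (2 * ω) * gw 2 T (ord n) (ord n') + η' * (Icc (-1 : ℝ) 1).indicator (fun _ => (1 : ℝ))
          ((ord n - ord n') * Real.log T / (2 * Real.pi))) (NZ T) :=
      PS_mono fun n j _ _ _ => hpt _ _
    have h5 : PS (fun n n' =>
        1 / (2 * ω) * gw 2 T (ord n) (ord n') + η' * (Icc (-1 : ℝ) 1).indicator (fun _ => (1 : ℝ))
          ((ord n - ord n') * Real.log T / (2 * Real.pi))) (NZ T) = 1 / (2 * ω) * AH.PT 2 T +
        η' * PS (fun n n' => (Icc (-1 : ℝ) 1).indicator (fun _ => (1 : ℝ))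
          ((ord n - ord n') * Real.log T / (2 * Real.pi))) (NZ T) := by
      unfold AH.PT AH.PS
      simp_rw [Finset.sum_add_distrib, Finset.mul_sum]
    rw [h5] at h4
    have h6 := mul_le_mul_of_nonneg_left h1 hη'0.le
    linarith
  have h3 : η' * (C1 * nT T) = η * nT T := by rw [hη']; field_simp
  rw [h3] at h2
  rw [div_le_iff₀ hn]
  have e : (1 / (2 * ω) * (AH.PT 2 T / nT T) + η) * nT T = 1 / (2 * ω) * AH.PT 2 T + η * nT T := by
    field_simp
  rw [e]
  exact h2

lemma PS_lin (a b g : ℕ → ℕ → ℝ) (c : ℝ) (N : ℕ) :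
    AH.PS (fun n n' => a n n' + c * (2 * b n n' - g n n')) N =
      AH.PS a N + c * (2 * AH.PS b N - AH.PS g N) := by
  unfold AH.PS
  have h : ∀ j, ∑ n ∈ Finset.Ioc 0 (N - j), (a n (n + j) + c * (2 * b n (n + j) - g n (n + j))) =
      (∑ n ∈ Finset.Ioc 0 (N - j), a n (n + j)) + c * (2 * (∑ n ∈ Finset.Ioc 0 (N - j), b n (n + j)) -
        ∑ n ∈ Finset.Ioc 0 (N - j), g n (n + j)) := by
    intro j
    rw [Finset.sum_add_distrib, ← Finset.mul_sum, Finset.sum_sub_distrib, ← Finset.mul_sum]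
  simp_rw [h]
  rw [Finset.sum_add_distrib, ← Finset.mul_sum, Finset.sum_sub_distrib, ← Finset.mul_sum]

/-- the pair sum of the square of the sine against the extremal kernel -/
theorem E4 (hRH : RiemannHypothesis) {η : ℝ} (hη : 0 < η) : ∃ C : ℝ, 0 < C ∧
    ∀ᶠ T in atTop, AH.PT 2 T / nT T ≤ C * ((2 * PP T - PG wt T) / nT T) + η := by
  obtain ⟨u, hfar⟩ := far hRH (R := 2) (by norm_num) hη
  refine ⟨1 + 4 * (u : ℝ) ^ 2, by positivity, ?_⟩
  filter_upwards [hfar, eventually_ge_atTop 10] with T h1 hT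
  have hn := nT_pos hT
  have hpt : ∀ n j : ℕ, gw 2 T (ord n) (ord (n + j)) ≤ tl 2 T u (ord n) (ord (n + j)) +
      (1 + 4 * (u : ℝ) ^ 2) * (2 * max 0 (gk wt T (ord n) (ord (n + j))) -
        gk wt T (ord n) (ord (n + j))) := by
    intro n j
    obtain ⟨g, hg⟩ : ∃ g : ℝ, g = gk wt T (ord n) (ord (n + j)) := ⟨_, rfl⟩
    rw [← hg]
    have h2 : |g| = 2 * max 0 g - g := by
      rcases le_total 0 g with h | h
      · rw [abs_of_nonneg h, max_eq_right h]; ring
      · rw [abs_of_nonpos h, max_eq_left h]; ring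
    rw [← h2]
    unfold tl
    split_ifs with h3
    · have : 0 ≤ (1 + 4 * (u : ℝ) ^ 2) * |g| := by positivity
      linarith
    · push Not at h3
      rw [zero_add, hg]
      unfold gw gk
      rw [abs_mul, abs_of_pos (ww_pos _), ← mul_assoc]
      exact mul_le_mul_of_nonneg_right (fl_tr_le h3.le) (ww_pos _).le
  have h2 : AH.PT 2 T ≤ PS (fun n n' => tl 2 T u (ord n) (ord n') +
      (1 + 4 * (u : ℝ) ^ 2) * (2 * max 0 (gk wt T (ord n) (ord n')) -
        gk wt T (ord n) (ord n'))) (NZ T) := PS_mono fun n j _ _ _ => hpt n j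
  have h3 : PS (fun n n' => tl 2 T u (ord n) (ord n') +
      (1 + 4 * (u : ℝ) ^ 2) * (2 * max 0 (gk wt T (ord n) (ord n')) -
        gk wt T (ord n) (ord n'))) (NZ T) = PS (fun n n' => tl 2 T u (ord n) (ord n')) (NZ T) +
      (1 + 4 * (u : ℝ) ^ 2) * (2 * PP T - PG wt T) := by
    exact PS_lin _ _ _ _ _
  rw [div_le_iff₀ hn]
  have e : ((1 + 4 * (u : ℝ) ^ 2) * ((2 * PP T - PG wt T) / nT T) + η) * nT T =
      (1 + 4 * (u : ℝ) ^ 2) * (2 * PP T - PG wt T) + η * nT T := by
    field_simp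
  rw [e]
  linarith

end Pool.Agent.Y763.AG
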