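import Pool.Agent.Y763.AG.G4

/-! # The criterion for gaps below one half, and its equality case -/

set_option autoImplicit false

open MeasureTheory Set Filter Topology

namespace Pool.Agent.Y763.AG

open Pool.Agent.Y749.Rig Pool.Agent.Y763.AH
open SG (ord NZ)
open H177.Lat (del)

/-- the weighted integral of the form factor -/
noncomputable def JW (κ T : ℝ) : ℝ := ∫ α in κ..2, wt α * Fr T α

/-- the constant -/
noncomputable def jw (κ : ℝ) : ℝ := 1 / 4 - ∫ α in (0 : ℝ)..κ, wt α * α

lemma wt_zero : wt 0 = 1 / 2 := by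
  rw [wt_eq le_rfl (by norm_num)]
  simp
  norm_num

lemma JW_lim (RH : RiemannHypothesis) {κ : ℝ} (hκ : 0 < κ) (hκ1 : κ < 1) :
    Tendsto (fun T => JW κ T - PG wt T / nT T) atTop (𝓝 (jw κ)) := by
  have h := J_gen RH wt_cont wt_even (R := 2) (by norm_num) (fun α hα => wt_supp hα) hκ hκ1
  have e : (fl wt 0 - wt 0) / 2 - ∫ α in (0 : ℝ)..κ, wt α * α = jw κ := by
    unfold jw
    rw [fl_wt_zero, wt_zero]
    norm_num
  rw [e] at h
  exact h

lemma small_sub {δ δ' : ℝ} (h : δ ≤ δ') (T : ℝ) : ST δ' T ⊆ ST δ T := by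
  classical
  intro n hn
  unfold ST at hn ⊢
  rw [Finset.mem_filter] at hn ⊢
  refine ⟨hn.1, ?_⟩
  have := hn.2
  unfold Sm at this ⊢
  linarith

open Classical in
/-- the small gaps in the normalisation with the height -/
noncomputable def QT (δ T : ℝ) : Finset ℕ := (Finset.Ioc 0 (NZ T)).filter (fun n =>
  δ * T ≤ ord n ∧ ord (n + 1) ≤ T ∧ ord (n + 1) - ord n < (1 / 2 - δ) * (2 * Real.pi / Real.log T))

/-- **An excess of the weighted integral forces a positive proportion of gaps below one half.** -/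
theorem crit (hRH : RiemannHypothesis) {κ : ℝ} (hκ : 0 < κ) (hκ1 : κ < 1) {c : ℝ} (hc : 0 < c) :
    ∃ δ : ℝ, 0 < δ ∧ ∀ᶠ T in atTop, jw κ + c ≤ JW κ T → δ * NZ T ≤ (QT δ T).card := by
  classical
  obtain ⟨δ1, hδ1, C, hC, hE⟩ := E2 hRH (η := c / 4) (by positivity)
  obtain ⟨c', hc'⟩ : ∃ c' : ℝ, c' = c / (4 * C) := ⟨_, rfl⟩
  have hc'0 : 0 < c' := by rw [hc']; positivity
  obtain ⟨δ0, hδ0, hδ01, hear⟩ := early (η := c' / 4) (by positivity)
  obtain ⟨δ, hδ⟩ : ∃ δ : ℝ, δ = min (min (δ1 / 2) δ0) (min (c' / 4) (1 / 4)) := ⟨_, rfl⟩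
  have p1 : δ ≤ δ1 / 2 := by rw [hδ]; exact (min_le_left _ _).trans (min_le_left _ _)
  have p2 : δ ≤ δ0 := by rw [hδ]; exact (min_le_left _ _).trans (min_le_right _ _)
  have p3 : δ ≤ c' / 4 := by rw [hδ]; exact (min_le_right _ _).trans (min_le_left _ _)
  have p4 : δ ≤ 1 / 4 := by rw [hδ]; exact (min_le_right _ _).trans (min_le_right _ _)
  have p0 : 0 < δ := by
    rw [hδ]
    exact lt_min (lt_min (by positivity) hδ0) (lt_min (by positivity) (by norm_num))
  refine ⟨δ, p0, ?_⟩
  have hpi := Real.pi_pos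
  obtain ⟨ρ, hρ⟩ : ∃ ρ : ℝ, ρ = min (δ1 / 2) (1 / 2) := ⟨_, rfl⟩
  have hρ0 : 0 < ρ := by rw [hρ]; exact lt_min (by positivity) (by norm_num)
  have hρ1 : ρ ≤ δ1 / 2 := by rw [hρ]; exact min_le_left _ _
  have hρ2 : ρ ≤ 1 / 2 := by rw [hρ]; exact min_le_right _ _
  have hNZ2 : ∀ᶠ T in atTop, (NZ T : ℝ) / nT T < 2 := NZ_lim.eventually (gt_mem_nhds (by norm_num))
  have hJ := (JW_lim hRH hκ hκ1).eventually (gt_mem_nhds (show jw κ < jw κ + c / 2 by linarith))
  filter_upwards [hE, hear, hNZ2, hJ, eventually_ge_atTop 10, nT_atTop.eventually_ge_atTop (4 / c'),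
    Real.tendsto_log_atTop.eventually_ge_atTop ((1 + |Real.log δ0|) / ρ)]
    with T h1 h2 h3 h4 hT h5 h6 h7
  have hn := nT_pos hT
  have hL := one_lt_log (show 3 ≤ T by linarith)
  have hL0 : 0 < Real.log T := by linarith
  rw [div_lt_iff₀ hn] at h3
  obtain ⟨N, hN⟩ : ∃ N : ℕ, N = NZ T := ⟨_, rfl⟩
  rw [← hN] at h3 ⊢
  have k1 : PG wt T / nT T ≤ PP T / nT T := div_le_div_of_nonneg_right (PG_le_PP T) hn.le
  have k2 : c / 4 ≤ C * ((ST δ1 T).card / nT T) := by linarith
  have k3 : c' * nT T ≤ (ST δ1 T).card := by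
    have : C * c' = c / 4 := by rw [hc']; field_simp
    rw [← this] at k2
    have k4 := le_of_mul_le_mul_left k2 hC
    rwa [le_div_iff₀ hn] at k4
  -- the comparison
  have hsub : ST δ1 T ⊆ (QT δ T ∪ {N}) ∪ Finset.Ioc 0 (NZ (δ0 * T)) := by
    intro n hnS
    unfold ST at hnS
    rw [Finset.mem_filter, Finset.mem_Ioc, ← hN] at hnS
    obtain ⟨⟨a1, a2⟩, a3⟩ := hnS
    unfold Sm at a3
    rw [Finset.mem_union, Finset.mem_union]
    by_cases c1 : n = N
    · left; right
      exact Finset.mem_singleton.2 c1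
    by_cases c2 : ord n ≤ δ0 * T
    · right
      rw [Finset.mem_Ioc]
      exact ⟨a1, (SG.ord_le_iff a1 _).1 c2⟩
    push Not at c2
    left; left
    have b1 : ord n ≤ ord (n + 1) := SG.ord_mono a1 (Nat.le_succ n)
    have b3 : ord (n + 1) ≤ T := (SG.ord_le_iff (by omega) T).2 (by omega)
    have b4 := cmp hT hδ0 c2.le b1 b3
    obtain ⟨y, hy⟩ : ∃ y : ℝ, y = (ord (n + 1) - ord n) * Real.log T / (2 * Real.pi) := ⟨_, rfl⟩
    rw [← hy] at b4
    have hy0 : 0 ≤ y := by
      rw [hy]
      have : 0 ≤ ord (n + 1) - ord n := by linarith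
      positivity
    have b5 : (1 + |Real.log δ0|) / Real.log T ≤ ρ := by
      rw [div_le_iff₀ hL0]
      rw [div_le_iff₀ hρ0] at h6
      linarith
    have b6 : |del n - y| ≤ y * ρ := b4.trans (mul_le_mul_of_nonneg_left b5 hy0)
    have b7 := (abs_le.1 b6).1
    have b8 : y * (1 - ρ) < 1 / 2 - δ1 := by linarith
    have b9 : y < 1 / 2 - δ1 / 2 := by
      by_contra hcon
      push Not at hcon
      rcases le_or_gt δ1 1 with g1 | g1
      · have g2 : (1 / 2 - δ1 / 2) * (1 - δ1 / 2) ≤ y * (1 - ρ) :=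
          mul_le_mul hcon (by linarith) (by linarith) hy0
        nlinarith
      · have g2 : 0 ≤ y * (1 - ρ) := mul_nonneg hy0 (by linarith)
        linarith
    unfold QT
    rw [Finset.mem_filter, Finset.mem_Ioc, ← hN]
    refine ⟨⟨a1, a2⟩, ?_, b3, ?_⟩
    · have : δ * T ≤ δ0 * T := mul_le_mul_of_nonneg_right p2 (by linarith)
      linarith
    · have g1 : y < 1 / 2 - δ := by linarith
      have g2 : ord (n + 1) - ord n = y * (2 * Real.pi / Real.log T) := by
        rw [hy]; field_simp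
      rw [g2]
      exact mul_lt_mul_of_pos_right g1 (by positivity)
  have hcard : (ST δ1 T).card ≤ (QT δ T).card + 1 + NZ (δ0 * T) := by
    refine (Finset.card_le_card hsub).trans ?_
    refine (Finset.card_union_le _ _).trans ?_
    have g1 := Finset.card_union_le (QT δ T) {N}
    rw [Finset.card_singleton] at g1
    rw [Nat.card_Ioc, Nat.sub_zero]
    omega
  have hcard' : ((ST δ1 T).card : ℝ) ≤ (QT δ T).card + 1 + NZ (δ0 * T) := by exact_mod_cast hcard
  have k5 : (1 : ℝ) ≤ c' / 4 * nT T := by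
    have : c' / 4 * (4 / c') ≤ c' / 4 * nT T := mul_le_mul_of_nonneg_left h5 (by positivity)
    have e : c' / 4 * (4 / c') = 1 := by field_simp
    linarith
  have k6 : δ * N ≤ c' / 4 * (2 * nT T) := by
    have : (0 : ℝ) ≤ N := Nat.cast_nonneg _
    nlinarith
  linarith

/-- **The equality case.** -/
theorem equality (hRH : RiemannHypothesis) {κ : ℝ} (hκ : 0 < κ) (hκ1 : κ < 1)
    {l : Filter ℝ} (hl : l ≤ atTop) :
    (∀ ε : ℝ, 0 < ε → Tendsto (fun T => ((BT 2 ε T).card : ℝ) / NZ T) l (𝓝 0)) ↔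
    Tendsto (JW κ) l (𝓝 (jw κ)) ∧
      ∀ δ : ℝ, 0 < δ → Tendsto (fun T => ((ST δ T).card : ℝ) / NZ T) l (𝓝 0) := by
  classical
  have hJ := (JW_lim hRH hκ hκ1).mono_left hl
  have hN1 := NZ_lim.mono_left hl
  have h10 : ∀ᶠ T : ℝ in l, 10 ≤ T := hl (eventually_ge_atTop 10)
  have hpos : ∀ᶠ T in l, 0 < (NZ T : ℝ) := by
    filter_upwards [hN1.eventually (lt_mem_nhds (show (0 : ℝ) < 1 by norm_num)), h10] with T a1 a2
    have := nT_pos a2
    rwa [lt_div_iff₀ this, zero_mul] at a1
  constructor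
  · intro h
    constructor
    · have h1 := (PT_iff hRH (R := 2) (by norm_num) hl).2 h
      have h2 : Tendsto (fun T => PG wt T / nT T) l (𝓝 0) := by
        rw [Metric.tendsto_nhds]
        intro η hη
        obtain ⟨C, hC, h3⟩ := E3 hRH (η := η / 2) (by positivity)
        filter_upwards [hl h3, h1.eventually (gt_mem_nhds (show (0 : ℝ) < η / (2 * C) by positivity)),
          h10] with T a1 a2 a3
        have hn := nT_pos a3
        rw [Real.dist_eq, sub_zero, abs_div, abs_of_pos hn]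
        have h4 : C * (AH.PT 2 T / nT T) < C * (η / (2 * C)) := mul_lt_mul_of_pos_left a2 hC
        have e : C * (η / (2 * C)) = η / 2 := by field_simp
        linarith
      have h3 := hJ.add h2
      rw [add_zero] at h3
      refine h3.congr fun T => ?_
      ring
    · intro δ hδ
      have h1 := h δ hδ
      refine squeeze_zero' (Eventually.of_forall fun T => by positivity) ?_ h1
      filter_upwards with T
      apply div_le_div_of_nonneg_right _ (Nat.cast_nonneg _)
      have : ST δ T ⊆ BT 2 δ T := by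
        intro n hn
        unfold ST at hn
        unfold BT
        rw [Finset.mem_filter] at hn ⊢
        refine ⟨hn.1, fun k hk => ?_⟩
        have h2 := hn.2
        unfold Sm at h2
        have h3 : (1 : ℝ) ≤ k := by exact_mod_cast hk
        rw [abs_sub_comm]
        refine le_trans ?_ (le_abs_self _)
        linarith
      exact_mod_cast Finset.card_le_card this
  · rintro ⟨h1, h2⟩
    rw [← PT_iff hRH (R := 2) (by norm_num) hl]
    have hPG : Tendsto (fun T => PG wt T / nT T) l (𝓝 0) := by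
      have h3 := h1.sub hJ
      rw [sub_self] at h3
      refine h3.congr fun T => ?_
      ring
    have hPP : Tendsto (fun T => PP T / nT T) l (𝓝 0) := by
      rw [Metric.tendsto_nhds]
      intro η hη
      obtain ⟨δ, hδ, C, hC, h3⟩ := E2 hRH (η := η / 2) (by positivity)
      have h4 : Tendsto (fun T => ((ST δ T).card : ℝ) / nT T) l (𝓝 0) := by
        have h5 := (h2 δ hδ).mul hN1
        rw [zero_mul] at h5
        refine h5.congr' ?_
        filter_upwards [hpos] with T hT
        field_simp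
      filter_upwards [hl h3, h4.eventually (gt_mem_nhds (show (0 : ℝ) < η / (2 * C) by positivity)),
        h10] with T a1 a2 a3
      have hn := nT_pos a3
      have h6 := PP_nonneg T
      rw [Real.dist_eq, sub_zero, abs_of_nonneg (by positivity)]
      have h4 : C * (((ST δ T).card : ℝ) / nT T) < C * (η / (2 * C)) := mul_lt_mul_of_pos_left a2 hC
      have e : C * (η / (2 * C)) = η / 2 := by field_simp
      linarith
    rw [Metric.tendsto_nhds]
    intro η hη
    obtain ⟨C, hC, h3⟩ := E4 hRH (η := η / 2) (by positivity)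
    have h4 : Tendsto (fun T => (2 * PP T - PG wt T) / nT T) l (𝓝 0) := by
      have h5 := (hPP.const_mul 2).sub hPG
      rw [mul_zero, sub_zero] at h5
      refine h5.congr fun T => ?_
      ring
    filter_upwards [hl h3, h4.eventually (gt_mem_nhds (show (0 : ℝ) < η / (2 * C) by positivity)),
      h10] with T a1 a2 a3
    have hn := nT_pos a3
    have h6 := Pool.Agent.Y763.AH.PT_nonneg (R := 2) (by norm_num) T
    rw [Real.dist_eq, sub_zero, abs_of_nonneg (by positivity)]
    have h7 : C * ((2 * PP T - PG wt T) / nT T) < C * (η / (2 * C)) := mul_lt_mul_of_pos_left a2 hC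
    have e : C * (η / (2 * C)) = η / 2 := by field_simp
    linarith

end Pool.Agent.Y763.AG
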